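import Pool.Agent.V11216.HNH

open Set Filter Topology
open Pool.Agent.V11216.HNH

namespace Pool.Agent.Results.MP_43aaf1_gt.CircleNH

noncomputable section

lemma loc_circle (y : AddCircle (2 * Real.pi)) :
    ∃ V : Set (AddCircle (2 * Real.pi)), IsOpen V ∧ y ∈ V ∧ Nonempty (V ≃ₜ ℝ) := by
  have hπ := Real.pi_pos
  haveI : Fact (0 < 2 * Real.pi) := ⟨by positivity⟩
  obtain ⟨t, rfl⟩ := QuotientAddGroup.mk_surjective y
  let P := AddCircle.openPartialHomeomorphCoe (2 * Real.pi) (t - Real.pi)
  let Q : OpenPartialHomeomorph ℝ ℝ := OpenPartialHomeomorph.univBall t Real.pi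
  have hs : (Q.trans P).source = univ := by
    rw [OpenPartialHomeomorph.trans_source, OpenPartialHomeomorph.univBall_source, univ_inter,
      eq_univ_iff_forall]
    intro x
    have hx : Q x ∈ Q.target := Q.map_source (by
      show x ∈ (OpenPartialHomeomorph.univBall t Real.pi).source
      rw [OpenPartialHomeomorph.univBall_source]; trivial)
    have ht : Q.target = Metric.ball t Real.pi := OpenPartialHomeomorph.univBall_target t hπ
    rw [ht, Real.ball_eq_Ioo] at hx
    show Q x ∈ P.source
    show Q x ∈ Ioo (t - Real.pi) (t - Real.pi + 2 * Real.pi)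
    exact ⟨hx.1, by linarith [hx.2]⟩
  refine ⟨(Q.trans P).target, (Q.trans P).open_target, ?_,
    ⟨(Q.trans P).toHomeomorphSourceTarget.symm.trans ((Homeomorph.setCongr hs).trans
      (Homeomorph.Set.univ ℝ))⟩⟩
  have h1 : (Q.trans P) 0 ∈ (Q.trans P).target := (Q.trans P).map_source (by rw [hs]; trivial)
  have h2 : (Q.trans P) 0 = (t : AddCircle (2 * Real.pi)) := by
    show P (Q 0) = _
    have : Q 0 = t := OpenPartialHomeomorph.univBall_apply_zero t Real.pi
    rw [this]
    rfl
  rw [h2] at h1
  exact h1

/-- There is a homogeneous non-Hausdorff `2`-manifold `M` in which, for every point `z`, the set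
of points that cannot be separated from `z` is homeomorphic to the circle. -/
theorem result : ∃ (M : Type) (_ : TopologicalSpace M),
    IsHNH 2 M ∧ ∀ z : M, Nonempty (NH z ≃ₜ Circle) := by
  let e : ℝ →+ AddCircle (2 * Real.pi) := QuotientAddGroup.mk' _
  have he : Continuous e := AddCircle.continuous_mk' _
  have hsurj : Function.Surjective e := QuotientAddGroup.mk'_surjective _
  refine ⟨M e, inferInstance, isHNH he hsurj loc_circle, fun z => ?_⟩
  obtain ⟨g⟩ := nh_homeo he hsurj z
  exact ⟨g.trans AddCircle.homeomorphCircle'⟩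

end

end Pool.Agent.Results.MP_43aaf1_gt.CircleNH
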