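import Pool.Agent.V11216.HNH

open Set Filter Topology
open Pool.Agent.V11216.HNH

namespace Pool.Agent.Results.MP_43aaf1_gt.LineNH

/-- There is a homogeneous non-Hausdorff `2`-manifold `M` in which, for every point `z`, the set
of points that cannot be separated from `z` is homeomorphic to the real line. -/
theorem result : ∃ (M : Type) (_ : TopologicalSpace M),
    IsHNH 2 M ∧ ∀ z : M, Nonempty (NH z ≃ₜ ℝ) := by
  have hloc : ∀ y : ℝ, ∃ V : Set ℝ, IsOpen V ∧ y ∈ V ∧ Nonempty (V ≃ₜ ℝ) := fun y =>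
    ⟨univ, isOpen_univ, trivial, ⟨Homeomorph.Set.univ ℝ⟩⟩
  exact ⟨M (AddMonoidHom.id ℝ), inferInstance,
    isHNH (e := AddMonoidHom.id ℝ) continuous_id Function.surjective_id hloc,
    fun z => nh_homeo (e := AddMonoidHom.id ℝ) continuous_id Function.surjective_id z⟩

end Pool.Agent.Results.MP_43aaf1_gt.LineNH
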